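import Pool.Agent.Helper98.DL.Assem
import Pool.Agent.Helper83.BQ.RainbowRes
import Pool.Agent.Helper78.SC.Skew

/-!
# MP_47cd0b: a dominating line in rank four

If a line `u` has `s` points and there are `n` points with `8 n + 6 s ≤ s ^ 2`, then there are data of
rank four.  Exact different skew lines for the points off `u` (one point in every plane over `u` left
out), and then the points of `u` (colours) by the rainbow theorem.
-/

set_option autoImplicit false
set_option linter.unusedSectionVars false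

namespace Pool.Agent.Helper98.DL

open Finset Pool.Agent.Helper28.BPack Pool.Agent.Helper61.Motz Pool.Agent.Helper38.Thick

/-- Sets which pairwise have at most the element `z` in common. -/
theorem sum_through {α β : Type} [DecidableEq α] {X : Finset α} {C : Finset β} {z : α} (hz : z ∈ X)
    (R : β → α → Prop) [∀ c w, Decidable (R c w)]
    (hsep : ∀ c ∈ C, ∀ c' ∈ C, ∀ w ∈ X, w ≠ z → R c w → R c' w → c = c') :
    ∑ c ∈ C, (X.filter (R c)).card + 1 ≤ C.card + X.card := by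
  classical
  have h1 : ∀ c ∈ C, (X.filter (R c)).card ≤ 1 + ((X.erase z).filter (R c)).card := by
    intro c _
    have h2 : X.filter (R c) ⊆ insert z ((X.erase z).filter (R c)) := by
      intro w hw
      rw [mem_filter] at hw
      rw [mem_insert, mem_filter, mem_erase]
      by_cases h : w = z
      · exact Or.inl h
      · exact Or.inr ⟨⟨h, hw.1⟩, hw.2⟩
    refine (card_le_card h2).trans ((card_insert_le _ _).trans ?_)
    omega
  have h2 : ∑ c ∈ C, ((X.erase z).filter (R c)).card ≤ (X.erase z).card := by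
    rw [← card_biUnion]
    · apply card_le_card
      intro w hw
      obtain ⟨c, -, h⟩ := mem_biUnion.mp hw
      exact (mem_filter.mp h).1
    · intro c hc c' hc' hne
      change Disjoint _ _
      rw [disjoint_left]
      intro w hw hw'
      rw [mem_filter, mem_erase] at hw hw'
      exact hne (hsep c hc c' hc' w hw.1.2 hw.1.1 hw.2 hw'.2)
  have h3 := sum_le_sum h1
  rw [sum_add_distrib, sum_const, smul_eq_mul, mul_one] at h3
  have h4 := card_erase_add_one hz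
  omega

variable {L : Type} [Lattice L] [BoundedOrder L] [Finite L] [IsUpperModularLattice L]

theorem inter_line' {P Q l x : L} (hP : rk P = 3) (hQ : rk Q = 3) (hl : rk l = 2) (hx : IsAtom x)
    (hlP : l ≤ P) (hlQ : l ≤ Q) (hxP : x ≤ P) (hxQ : x ≤ Q) (h : P ≠ Q) : x ≤ l := by
  by_contra hxl
  have h1 := rk_sup_atom hx hxl
  have e1 : l ⊔ x = P := eq_of_le_of_rk (sup_le hlP hxP) (by omega)
  have e2 : l ⊔ x = Q := eq_of_le_of_rk (sup_le hlQ hxQ) (by omega)
  exact h (e1.symm.trans e2)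

theorem exists_not_le' {A : Finset L} (hrA : rk (A.sup id) = 4) {p : L} (hp : rk p ≤ 3) :
    ∃ a ∈ A, ¬ a ≤ p := by
  by_contra hcon
  push Not at hcon
  have h1 : A.sup id ≤ p := Finset.sup_le hcon
  have h2 := rk_mono h1
  omega

/-- A skew line `g` of `z` and a point `c` of `u` span a plane which is not over `u`. -/
theorem skew_plane {u z c g y : L} (hu : rk u = 2) (hz : IsAtom z) (hzu : ¬ z ≤ u) (hc : IsAtom c)
    (hcu : c ≤ u) (hg : rk g = 2) (hzg : z ≤ g) (hyg : y ≤ g) (hyz : ¬ y ≤ u ⊔ z) :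
    rk (c ⊔ g) = 3 ∧ ¬ u ≤ c ⊔ g := by
  have hcg : ¬ c ≤ g := by
    intro h
    have h1 : z ⊔ c = g := line_of hz hc (fun h2 => hzu (h2 ▸ hcu)) hzg h hg
    exact hyz (hyg.trans (h1 ▸ sup_le le_sup_right (hcu.trans le_sup_left)))
  have h3 : rk (c ⊔ g) = 3 := by
    rw [sup_comm, rk_sup_atom hc hcg, hg]
  refine ⟨h3, ?_⟩
  intro h
  have h1 : u ⊔ z = c ⊔ g := eq_of_le_of_rk (sup_le h (hzg.trans le_sup_right)) (by
    rw [rk_sup_atom hz hzu, hu, h3])
  exact hyz (h1 ▸ hyg.trans le_sup_right)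

/-- **Colours.** -/
theorem colours {A : Finset L} (hA : ∀ a ∈ A, IsAtom a) {u : L} (hu : rk u = 2) {X C : Finset L}
    (hX : ∀ z ∈ X, z ∈ A ∧ ¬ z ≤ u) (hC : ∀ c ∈ C, c ∈ A ∧ c ≤ u) {g : L → L}
    (hg : ∀ z ∈ X, rk (g z) = 2 ∧ z ≤ g z ∧ (∃ y ∈ A, y ≤ g z ∧ ¬ y ≤ u ⊔ z))
    (hgi : ∀ z ∈ X, ∀ z' ∈ X, g z = g z' → z = z') (bad : L → L → Prop) {k M D : ℕ}
    [∀ z c, Decidable (bad z c)]
    (hbad : ∀ z ∈ X, (C.filter (bad z)).card ≤ k) (hM : 0 < M) (hD : C.card + 1 = D + k + M)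
    (hN : 2 * (C.card + X.card) < (M + 1) * D + 2) :
    ∃ col : L → L, (∀ z ∈ X, col z ∈ C ∧ ¬ bad z (col z)) ∧
      (∀ z ∈ X, ∀ z' ∈ X, z ⊔ col z = z' ⊔ col z' → z = z') ∧
      (∀ z ∈ X, ∀ z' ∈ X, col z ⊔ g z = col z' ⊔ g z' → z = z') := by
  classical
  have hrow2 : ∀ z ∈ X, ∀ c ∈ C, rk (z ⊔ c) = 2 := fun z hz c hc =>
    rk_line (hA z (hX z hz).1) (hA c (hC c hc).1) (fun h => (hX z hz).2 (h ▸ (hC c hc).2))
  have hpl3 : ∀ z ∈ X, ∀ c ∈ C, rk (c ⊔ g z) = 3 ∧ ¬ u ≤ c ⊔ g z := by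
    intro z hz c hc
    obtain ⟨h1, h2, y, hy, h3, h4⟩ := hg z hz
    exact skew_plane hu (hA z (hX z hz).1) (hX z hz).2 (hA c (hC c hc).1) (hC c hc).2 h1 h2 h3 h4
  let ld : L → L → ℕ := fun z c => (X.filter (fun w => w ≤ z ⊔ c)).card +
    (X.filter (fun w => g w ≤ c ⊔ g z)).card
  -- the total load
  have hld : ∀ z ∈ X, ∑ c ∈ C, ld z c + 2 ≤ 2 * (C.card + X.card) := by
    intro z hz
    have h1 := sum_through (X := X) (C := C) hz (fun c w => w ≤ z ⊔ c) (by
      intro c hc c' hc' w hw hne h1 h2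
      have e1 : z ⊔ w = z ⊔ c := line_of (hA z (hX z hz).1) (hA w (hX w hw).1) hne.symm
        le_sup_left h1 (hrow2 z hz c hc)
      have e2 : z ⊔ w = z ⊔ c' := line_of (hA z (hX z hz).1) (hA w (hX w hw).1) hne.symm
        le_sup_left h2 (hrow2 z hz c' hc')
      exact same_col (hA c (hC c hc).1) (hA c' (hC c' hc').1) (hA z (hX z hz).1)
        (hA z (hX z hz).1) (hC c hc).2 (hC c' hc').2 hu (hX z hz).2 (e1.symm.trans e2))
    have h2 := sum_through (X := X) (C := C) hz (fun c w => g w ≤ c ⊔ g z) (by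
      intro c hc c' hc' w hw hne h1 h2
      by_contra hcc
      apply hne
      apply hgi w hw z hz
      obtain ⟨k1, k2, y, hy, k3, k4⟩ := hg w hw
      obtain ⟨m1, m2, -⟩ := hg z hz
      have hPQ : c ⊔ g z ≠ c' ⊔ g z := by
        intro e
        have e1 : c ⊔ c' = u := line_of (hA c (hC c hc).1) (hA c' (hC c' hc').1) hcc
          (hC c hc).2 (hC c' hc').2 hu
        exact (hpl3 z hz c hc).2 (e1 ▸ sup_le le_sup_left (e ▸ le_sup_left))
      have n1 := inter_line' (hpl3 z hz c hc).1 (hpl3 z hz c' hc').1 m1 (hA w (hX w hw).1)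
        le_sup_right le_sup_right (k2.trans h1) (k2.trans h2) hPQ
      have n2 := inter_line' (hpl3 z hz c hc).1 (hpl3 z hz c' hc').1 m1 (hA y hy)
        le_sup_right le_sup_right (k3.trans h1) (k3.trans h2) hPQ
      have hwy : w ≠ y := fun h => k4 (h ▸ le_sup_right)
      exact line_two (hA w (hX w hw).1) (hA y hy) hwy k2 k3 k1 n1 n2 m1)
    have h3 : ∑ c ∈ C, ld z c = ∑ c ∈ C, (X.filter (fun w => w ≤ z ⊔ c)).card +
        ∑ c ∈ C, (X.filter (fun w => g w ≤ c ⊔ g z)).card := sum_add_distrib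
    omega
  let T : Finset (L × L) := (X ×ˢ C).filter (fun p => ¬ bad p.1 p.2 ∧ ld p.1 p.2 ≤ M)
  have hT : ∀ p, p ∈ T ↔ (p.1 ∈ X ∧ p.2 ∈ C) ∧ ¬ bad p.1 p.2 ∧ ld p.1 p.2 ≤ M := by
    intro p
    simp only [T, mem_filter, mem_product]
  let res : L × L → Finset L := fun p => {p.1 ⊔ p.2, p.2 ⊔ g p.1}
  have hres : ∀ p q, q ∈ res p ↔ q = p.1 ⊔ p.2 ∨ q = p.2 ⊔ g p.1 := by
    intro p q
    simp only [res, mem_insert, mem_singleton]
  by_cases hXe : X = ∅
  · exact ⟨id, by simp [hXe], by simp [hXe], by simp [hXe]⟩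
  obtain ⟨z00, hz00⟩ := nonempty_iff_ne_empty.mpr hXe
  have : Nonempty (L × L) := ⟨(z00, z00)⟩
  obtain ⟨f, hf1, hf2⟩ := Pool.Agent.Helper83.BQ.rainbow_card T X Prod.fst res M hM
    (fun t ht => ((hT t).mp ht).1.1)
    (by
      rintro ⟨z, c⟩ ht
      obtain ⟨⟨hz, hc⟩, -, hl⟩ := (hT _).mp ht
      have hne : z ⊔ c ∉ ({c ⊔ g z} : Finset L) := by
        rw [mem_singleton]
        intro e
        have h1 := hrow2 z hz c hc
        have h2 := (hpl3 z hz c hc).1
        rw [e] at h1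
        omega
      change ∑ q ∈ ({z ⊔ c, c ⊔ g z} : Finset L), _ ≤ M
      rw [sum_insert hne, sum_singleton]
      refine le_trans (add_le_add ?_ ?_) hl
      · refine card_le_card_of_injOn Prod.fst ?_ ?_
        · rintro ⟨z', c'⟩ hs
          rw [mem_coe, mem_filter] at hs
          obtain ⟨⟨hz', hc'⟩, -⟩ := (hT _).mp hs.1
          rw [mem_coe, mem_filter]
          refine ⟨hz', ?_⟩
          rcases (hres _ _).mp hs.2 with e | e
          · exact e ▸ le_sup_left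
          · exfalso
            have h1 := hrow2 z hz c hc
            have h2 := (hpl3 z' hz' c' hc').1
            change z ⊔ c = c' ⊔ g z' at e
            rw [e] at h1
            omega
        · rintro ⟨z', c'⟩ hs ⟨z'', c''⟩ hs' e
          rw [mem_coe, mem_filter] at hs hs'
          obtain ⟨⟨hz', hc'⟩, -⟩ := (hT _).mp hs.1
          obtain ⟨⟨hz'', hc''⟩, -⟩ := (hT _).mp hs'.1
          have key : ∀ z' c', z' ∈ X → c' ∈ C → z ⊔ c ∈ res (z', c') → c = c' := by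
            intro z' c' hz' hc' h
            rcases (hres _ _).mp h with e | e
            · exact same_col (hA c (hC c hc).1) (hA c' (hC c' hc').1) (hA z (hX z hz).1)
                (hA z' (hX z' hz').1) (hC c hc).2 (hC c' hc').2 hu (hX z hz).2 e
            · exfalso
              have h1 := hrow2 z hz c hc
              have h2 := (hpl3 z' hz' c' hc').1
              change z ⊔ c = c' ⊔ g z' at e
              rw [e] at h1
              omega
          have e1 := key z' c' hz' hc' hs.2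
          have e2 := key z'' c'' hz'' hc'' hs'.2
          exact Prod.ext e (e1.symm.trans e2)
      · refine card_le_card_of_injOn Prod.fst ?_ ?_
        · rintro ⟨z', c'⟩ hs
          rw [mem_coe, mem_filter] at hs
          obtain ⟨⟨hz', hc'⟩, -⟩ := (hT _).mp hs.1
          rw [mem_coe, mem_filter]
          refine ⟨hz', ?_⟩
          rcases (hres _ _).mp hs.2 with e | e
          · exfalso
            have h1 := hrow2 z' hz' c' hc'
            have h2 := (hpl3 z hz c hc).1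
            change c ⊔ g z = z' ⊔ c' at e
            rw [e] at h2
            omega
          · change c ⊔ g z = c' ⊔ g z' at e
            exact e ▸ le_sup_right
        · rintro ⟨z', c'⟩ hs ⟨z'', c''⟩ hs' e
          rw [mem_coe, mem_filter] at hs hs'
          obtain ⟨⟨hz', hc'⟩, -⟩ := (hT _).mp hs.1
          obtain ⟨⟨hz'', hc''⟩, -⟩ := (hT _).mp hs'.1
          have key : ∀ z' c', z' ∈ X → c' ∈ C → c ⊔ g z ∈ res (z', c') → c = c' := by
            intro z' c' hz' hc' h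
            by_contra hcc
            rcases (hres _ _).mp h with e | e
            · have h1 := hrow2 z' hz' c' hc'
              have h2 := (hpl3 z hz c hc).1
              change c ⊔ g z = z' ⊔ c' at e
              rw [e] at h2
              omega
            · change c ⊔ g z = c' ⊔ g z' at e
              have e1 : c ⊔ c' = u := line_of (hA c (hC c hc).1) (hA c' (hC c' hc').1) hcc
                (hC c hc).2 (hC c' hc').2 hu
              exact (hpl3 z hz c hc).2 (e1 ▸ sup_le le_sup_left (e.symm ▸ le_sup_left))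
          have e1 := key z' c' hz' hc' hs.2
          have e2 := key z'' c'' hz'' hc'' hs'.2
          exact Prod.ext e (e1.symm.trans e2))
    (by
      intro z hz
      have h1 : (C.filter (fun c => ¬ bad z c ∧ ld z c ≤ M)).card ≤
          (T.filter (fun t => t.1 = z)).card := by
        refine card_le_card_of_injOn (fun c => (z, c)) ?_ ?_
        · intro c hc
          rw [mem_coe, mem_filter] at hc
          rw [mem_coe, mem_filter]
          exact ⟨(hT _).mpr ⟨⟨hz, hc.1⟩, hc.2⟩, rfl⟩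
        · intro c _ c' _ e
          exact (Prod.ext_iff.mp e).2
      refine le_trans ?_ h1
      by_contra hlt
      push Not at hlt
      have h2 : C ⊆ C.filter (bad z) ∪ (C.filter (fun c => M < ld z c) ∪
          C.filter (fun c => ¬ bad z c ∧ ld z c ≤ M)) := by
        intro c hc
        rw [mem_union, mem_union, mem_filter, mem_filter, mem_filter]
        by_cases h3 : bad z c
        · exact Or.inl ⟨hc, h3⟩
        · rcases le_or_gt (ld z c) M with h4 | h4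
          · exact Or.inr (Or.inr ⟨hc, h3, h4⟩)
          · exact Or.inr (Or.inl ⟨hc, h4⟩)
      have h3 := (card_le_card h2).trans ((card_union_le _ _).trans
        (add_le_add (hbad z hz) (card_union_le _ _)))
      have h4 : (M + 1) * (C.filter (fun c => M < ld z c)).card ≤ ∑ c ∈ C, ld z c := by
        calc (M + 1) * (C.filter (fun c => M < ld z c)).card
            = ∑ _c ∈ C.filter (fun c => M < ld z c), (M + 1) := by
              rw [sum_const, smul_eq_mul, mul_comm]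
          _ ≤ ∑ c ∈ C.filter (fun c => M < ld z c), ld z c :=
              sum_le_sum fun c hc => (mem_filter.mp hc).2
          _ ≤ ∑ c ∈ C, ld z c := sum_le_sum_of_subset (filter_subset _ _)
      have h5 := hld z hz
      have h6 : D ≤ (C.filter (fun c => M < ld z c)).card := by omega
      have h7 := Nat.mul_le_mul_left (M + 1) h6
      omega)
  refine ⟨fun z => (f z).2, ?_, ?_, ?_⟩
  · intro z hz
    obtain ⟨h1, h2⟩ := hf1 z hz
    obtain ⟨⟨h3, h4⟩, h5, h6⟩ := (hT _).mp h1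
    rw [h2] at h5
    exact ⟨h4, h5⟩
  · intro z hz z' hz' e
    by_contra hne
    have h1 : z ⊔ (f z).2 ∈ res (f z) := by
      rw [hres, (hf1 z hz).2]
      exact Or.inl rfl
    have h2 : z ⊔ (f z).2 ∈ res (f z') := by
      rw [hres, (hf1 z' hz').2]
      exact Or.inl e
    exact disjoint_left.mp (hf2 z hz z' hz' hne) h1 h2
  · intro z hz z' hz' e
    by_contra hne
    have h1 : (f z).2 ⊔ g z ∈ res (f z) := by
      rw [hres, (hf1 z hz).2]
      exact Or.inr rfl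
    have h2 : (f z).2 ⊔ g z ∈ res (f z') := by
      rw [hres, (hf1 z' hz').2]
      exact Or.inr e
    exact disjoint_left.mp (hf2 z hz z' hz' hne) h1 h2

open Classical in
/-- **A dominating line in rank four.** -/
theorem crit4_dominating8 {A : Finset L} (hA : ∀ a ∈ A, IsAtom a) (hr : rk (A.sup id) = 4) {u : L}
    (hu : rk u = 2)
    (h : 8 * A.card + 6 * (A.filter (· ≤ u)).card ≤ (A.filter (· ≤ u)).card ^ 2) : Crit4 A := by
  obtain ⟨s, hs⟩ : ∃ s, s = (A.filter (· ≤ u)).card := ⟨_, rfl⟩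
  rw [← hs] at h
  have hsn : s ≤ A.card := hs ▸ card_le_card (filter_subset _ _)
  have hn0 : 0 < A.card := by
    rw [card_pos]
    by_contra hne
    rw [not_nonempty_iff_eq_empty] at hne
    rw [hne, sup_empty, rk_bot] at hr
    omega
  have hs14 : 14 ≤ s := by
    have h0 : s ≠ 0 := by
      rintro rfl
      omega
    have h1 : 14 * s ≤ s * s := by nlinarith
    exact Nat.le_of_mul_le_mul_right h1 (Nat.pos_of_ne_zero h0)
  -- the frame
  obtain ⟨c0, h0, c1, h1, h01⟩ := one_lt_card.mp (show 1 < (A.filter (· ≤ u)).card by omega)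
  obtain ⟨hc0, hc0u⟩ := mem_filter.mp h0
  obtain ⟨hc1, hc1u⟩ := mem_filter.mp h1
  obtain ⟨b2, hb2, hb2u⟩ := exists_not_le' hr (p := u) (by omega)
  have hub2 : rk (u ⊔ b2) = 3 := by rw [rk_sup_atom (hA b2 hb2) hb2u, hu]
  obtain ⟨b3, hb3, hb3u⟩ := exists_not_le' hr (p := u ⊔ b2) (by omega)
  have r4 : rk (u ⊔ b2 ⊔ b3) = 4 := by rw [rk_sup_atom (hA b3 hb3) hb3u, hub2]
  have hb3u' : ¬ b3 ≤ u := fun h => hb3u (h.trans le_sup_left)
  have hb23 : b2 ≠ b3 := fun h => hb3u (h ▸ le_sup_right)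
  have hl : rk (b2 ⊔ b3) = 2 := rk_line (hA b2 hb2) (hA b3 hb3) hb23
  have hpr : ∀ z ∈ A, ¬ z ≤ u → rk (u ⊔ z) = 3 := fun z hz hzu => by
    rw [rk_sup_atom (hA z hz) hzu, hu]
  -- representatives of the planes over u
  have hrep : ∀ P : L, ∃ r : L, ∀ z ∈ A, ¬ z ≤ u → P = u ⊔ z →
      (r ∈ A ∧ ¬ r ≤ u ∧ r ≤ u ⊔ z) ∧ ∀ y ∈ A, ¬ y ≤ u → y ≤ b2 ⊔ b3 → y ≤ u ⊔ z → r = y := by
    intro P
    by_cases hex : ∃ y ∈ A, ¬ y ≤ u ∧ y ≤ b2 ⊔ b3 ∧ y ≤ P
    · obtain ⟨y, hy, hyu, hyb, hyP⟩ := hex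
      refine ⟨y, ?_⟩
      rintro z hz hzu rfl
      refine ⟨⟨hy, hyu, hyP⟩, ?_⟩
      intro y' hy' hyu' hyb' hyP'
      by_contra hne
      have e1 : y ⊔ y' = b2 ⊔ b3 := line_of (hA y hy) (hA y' hy') hne hyb hyb' hl
      have e2 : b2 ⊔ b3 ≤ u ⊔ z := e1 ▸ sup_le hyP hyP'
      have e3 := rk_mono (sup_le (sup_le le_sup_left (le_sup_left.trans e2))
        (le_sup_right.trans e2) : u ⊔ b2 ⊔ b3 ≤ u ⊔ z)
      have e4 := hpr z hz hzu
      omega
    · by_cases hex' : ∃ z ∈ A, ¬ z ≤ u ∧ P = u ⊔ z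
      · obtain ⟨z0, hz0, hz0u, hP⟩ := hex'
        refine ⟨z0, ?_⟩
        rintro z hz hzu rfl
        refine ⟨⟨hz0, hz0u, hP ▸ le_sup_right⟩, ?_⟩
        intro y hy hyu hyb hyP
        exact absurd ⟨y, hy, hyu, hyb, hyP⟩ hex
      · refine ⟨P, ?_⟩
        intro z hz hzu hP
        exact absurd ⟨z, hz, hzu, hP⟩ hex'
  choose ρ hρ using hrep
  let E : Finset L := A.filter (fun e => ¬ e ≤ u ∧ ρ (u ⊔ e) = e)
  have hEm : ∀ e, e ∈ E ↔ e ∈ A ∧ ¬ e ≤ u ∧ ρ (u ⊔ e) = e := fun e => by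
    simp only [E, mem_filter]
  have hplane : ∀ z ∈ A, ¬ z ≤ u → ∀ w ∈ A, ¬ w ≤ u → w ≤ u ⊔ z → u ⊔ w = u ⊔ z := by
    intro z hz hzu w hw hwu h1
    exact eq_of_le_of_rk (sup_le le_sup_left h1) (by rw [hpr z hz hzu, hpr w hw hwu])
  have hE : ∀ z ∈ A, ¬ z ≤ u → ∃ e ∈ E, e ∈ A ∧ ¬ e ≤ u ∧ u ⊔ e = u ⊔ z := by
    intro z hz hzu
    obtain ⟨⟨k1, k2, k3⟩, -⟩ := hρ (u ⊔ z) z hz hzu rfl
    have k4 := hplane z hz hzu _ k1 k2 k3
    exact ⟨ρ (u ⊔ z), (hEm _).mpr ⟨k1, k2, by rw [k4]⟩, k1, k2, k4⟩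
  have hEline : ∀ y ∈ A, ¬ y ≤ u → y ≤ b2 ⊔ b3 → y ∈ E := by
    intro y hy hyu hyb
    exact (hEm y).mpr ⟨hy, hyu, (hρ (u ⊔ y) y hy hyu rfl).2 y hy hyu hyb le_sup_right⟩
  have hE2 := hEline b2 hb2 hb2u le_sup_left
  have hE3 := hEline b3 hb3 hb3u' le_sup_right
  obtain ⟨g, hg, hgi⟩ := Pool.Agent.Helper78.SC.skew_lines hA hr hu E hE
  have hgb : ∀ z ∈ A, ¬ z ≤ u → z ∉ E → g z ≠ b2 ⊔ b3 := by
    intro z hz hzu hzE e
    exact hzE (hEline z hz hzu (e ▸ (hg z hz hzu hzE).2.1))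
  have hy : ∀ z : L, ∃ y : L, z ∈ A → ¬ z ≤ u → z ∉ E → y ∈ A ∧ y ≤ g z ∧ ¬ y ≤ u ⊔ z := by
    intro z
    by_cases h1 : z ∈ A ∧ ¬ z ≤ u ∧ z ∉ E
    · obtain ⟨y, hy, h2, h3⟩ := (hg z h1.1 h1.2.1 h1.2.2).2.2
      exact ⟨y, fun _ _ _ => ⟨hy, h2, h3⟩⟩
    · exact ⟨z, fun h2 h3 h4 => absurd ⟨h2, h3, h4⟩ h1⟩
  choose y hy using hy
  -- colours
  let X : Finset L := A.filter (fun z => ¬ z ≤ u ∧ z ∉ E)
  have hXm : ∀ z, z ∈ X ↔ z ∈ A ∧ ¬ z ≤ u ∧ z ∉ E := fun z => by simp only [X, mem_filter]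
  let C : Finset L := ((A.filter (· ≤ u)).erase c0).erase c1
  have hCm : ∀ c, c ∈ C ↔ c ≠ c1 ∧ c ≠ c0 ∧ c ∈ A ∧ c ≤ u := fun c => by
    simp only [C, mem_erase, mem_filter]
  have hCc : C.card + 2 = s := by
    have e1 := card_erase_add_one h0
    have e2 := card_erase_add_one (mem_erase.mpr ⟨h01.symm, h1⟩)
    have e3 : C.card = (((A.filter (· ≤ u)).erase c0).erase c1).card := rfl
    omega
  have hXc : X.card + s ≤ A.card := by
    have e1 : Disjoint X (A.filter (· ≤ u)) := by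
      rw [disjoint_left]
      intro z hz hz'
      exact ((hXm z).mp hz).2.1 (mem_filter.mp hz').2
    rw [hs, ← card_union_of_disjoint e1]
    apply card_le_card
    intro z hz
    rcases mem_union.mp hz with hz | hz
    · exact ((hXm z).mp hz).1
    · exact (mem_filter.mp hz).1
  let bad : L → L → Prop := fun z c => b2 ≤ z ⊔ c ∨ b3 ≤ z ⊔ c ∨ b2 ⊔ b3 ≤ c ⊔ g z
  have hbad : ∀ z ∈ X, (C.filter (bad z)).card ≤ 3 := by
    intro z hz
    obtain ⟨hzA, hzu, hzE⟩ := (hXm z).mp hz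
    obtain ⟨k1, k2, -⟩ := hg z hzA hzu hzE
    obtain ⟨k3, k4, k5⟩ := hy z hzA hzu hzE
    have hone : ∀ b ∈ A, ¬ b ≤ u → b ∈ E → (C.filter (fun c => b ≤ z ⊔ c)).card ≤ 1 := by
      intro b hb hbu hbE
      rw [card_le_one]
      intro c hc c' hc'
      rw [mem_filter, hCm] at hc hc'
      have hzb : z ≠ b := fun h => hzE (h ▸ hbE)
      have q1 : ∀ c ∈ A, c ≤ u → rk (z ⊔ c) = 2 := fun c hc hcu =>
        rk_line (hA z hzA) (hA c hc) (fun h => hzu (h ▸ hcu))
      have e1 : z ⊔ b = z ⊔ c := line_of (hA z hzA) (hA b hb) hzb le_sup_left hc.2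
        (q1 c hc.1.2.2.1 hc.1.2.2.2)
      have e2 : z ⊔ b = z ⊔ c' := line_of (hA z hzA) (hA b hb) hzb le_sup_left hc'.2
        (q1 c' hc'.1.2.2.1 hc'.1.2.2.2)
      exact same_col (hA c hc.1.2.2.1) (hA c' hc'.1.2.2.1) (hA z hzA) (hA z hzA) hc.1.2.2.2
        hc'.1.2.2.2 hu hzu (e1.symm.trans e2)
    have h2 := hone b2 hb2 hb2u hE2
    have h3 := hone b3 hb3 hb3u' hE3
    have h4 : (C.filter (fun c => b2 ⊔ b3 ≤ c ⊔ g z)).card ≤ 1 := by
      rw [card_le_one]
      intro c hc c' hc'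
      rw [mem_filter, hCm] at hc hc'
      by_contra hcc
      have p1 := skew_plane hu (hA z hzA) hzu (hA c hc.1.2.2.1) hc.1.2.2.2 k1 k2 k4 k5
      have p2 := skew_plane hu (hA z hzA) hzu (hA c' hc'.1.2.2.1) hc'.1.2.2.2 k1 k2 k4 k5
      have hPQ : c ⊔ g z ≠ c' ⊔ g z := by
        intro e
        have e1 : c ⊔ c' = u := line_of (hA c hc.1.2.2.1) (hA c' hc'.1.2.2.1) hcc
          hc.1.2.2.2 hc'.1.2.2.2 hu
        exact p1.2 (e1 ▸ sup_le le_sup_left (e ▸ le_sup_left))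
      have n1 := inter_line' p1.1 p2.1 k1 (hA b2 hb2) le_sup_right le_sup_right
        (le_sup_left.trans hc.2) (le_sup_left.trans hc'.2) hPQ
      have n2 := inter_line' p1.1 p2.1 k1 (hA b3 hb3) le_sup_right le_sup_right
        (le_sup_right.trans hc.2) (le_sup_right.trans hc'.2) hPQ
      exact hgb z hzA hzu hzE (line_of (hA b2 hb2) (hA b3 hb3) hb23 n1 n2 k1).symm
    have h5 : C.filter (bad z) ⊆ C.filter (fun c => b2 ≤ z ⊔ c) ∪
        (C.filter (fun c => b3 ≤ z ⊔ c) ∪ C.filter (fun c => b2 ⊔ b3 ≤ c ⊔ g z)) := by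
      intro c hc
      rw [mem_filter] at hc
      rw [mem_union, mem_union, mem_filter, mem_filter, mem_filter]
      rcases hc.2 with h6 | h6 | h6
      · exact Or.inl ⟨hc.1, h6⟩
      · exact Or.inr (Or.inl ⟨hc.1, h6⟩)
      · exact Or.inr (Or.inr ⟨hc.1, h6⟩)
    have h6 := (card_le_card h5).trans ((card_union_le _ _).trans
      (add_le_add le_rfl (card_union_le _ _)))
    omega
  -- numbers: (M + 1) D > 2 n
  obtain ⟨p, D, hpD, hp2, hprod⟩ : ∃ p D : ℕ, p + D + 3 = s ∧ 2 ≤ p ∧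
      (s - 3) ^ 2 ≤ 4 * (p * D) + 1 := by
    obtain ⟨t, ht⟩ : ∃ t, s = t + 3 := ⟨s - 3, by omega⟩
    subst ht
    rw [Nat.add_sub_cancel]
    rcases Nat.even_or_odd' t with ⟨w, hw | hw⟩
    · exact ⟨w, w, by omega, by omega, by subst hw; nlinarith⟩
    · exact ⟨w, w + 1, by omega, by omega, by subst hw; nlinarith⟩
  obtain ⟨col, hcol, hrow, hpl⟩ := colours hA hu (X := X) (C := C)
    (fun z hz => ⟨((hXm z).mp hz).1, ((hXm z).mp hz).2.1⟩)
    (fun c hc => ⟨((hCm c).mp hc).2.2.1, ((hCm c).mp hc).2.2.2⟩)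
    (g := g) (fun z hz => by
      obtain ⟨h2, h3, h4⟩ := (hXm z).mp hz
      exact hg z h2 h3 h4)
    (fun z hz z' hz' e => by
      obtain ⟨h2, h3, h4⟩ := (hXm z).mp hz
      obtain ⟨h2', h3', h4'⟩ := (hXm z').mp hz'
      exact hgi z h2 h3 h4 z' h2' h3' h4' e) bad (k := 3) (M := p - 1) (D := D) hbad (by omega)
    (by omega) (by
      have e1 : p - 1 + 1 = p := by omega
      rw [e1]
      have e2 : (s - 3) ^ 2 + 6 * s = s ^ 2 + 9 := by
        obtain ⟨t, ht⟩ : ∃ t, s = t + 3 := ⟨s - 3, by omega⟩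
        subst ht
        rw [Nat.add_sub_cancel]
        ring
      omega)
  refine assemble hA hu hc0 hc1 hb2 hb3 h01 hc0u hc1u hb2u hb3u (fun z => z ∈ E) hE2 hE3 ?_
    col g y ?_ ?_ ?_ ?_
  · intro e he e' he' _ _ h2 h3 h4
    rw [← ((hEm e).mp h2).2.2, ← ((hEm e').mp h3).2.2, h4]
  · intro z hz hzu hzE
    obtain ⟨m1, m2⟩ := hcol z ((hXm z).mpr ⟨hz, hzu, hzE⟩)
    obtain ⟨m3, m4, m5, m6⟩ := (hCm _).mp m1
    obtain ⟨k1, k2, -⟩ := hg z hz hzu hzE
    obtain ⟨k3, k4, k5⟩ := hy z hz hzu hzE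
    exact ⟨m5, m6, m4, m3, fun h2 => m2 (Or.inl h2), fun h2 => m2 (Or.inr (Or.inl h2)), k1, k2,
      k3, k4, k5, fun h2 => m2 (Or.inr (Or.inr h2)), hgb z hz hzu hzE⟩
  · intro z hz z' hz' h2 h3 h4 h5 e
    exact hrow z ((hXm z).mpr ⟨hz, h2, h4⟩) z' ((hXm z').mpr ⟨hz', h3, h5⟩) e
  · intro z hz z' hz' h2 h3 h4 h5 e
    exact hgi z hz h2 h4 z' hz' h3 h5 e
  · intro z hz z' hz' h2 h3 h4 h5 e
    exact hpl z ((hXm z).mpr ⟨hz, h2, h4⟩) z' ((hXm z').mpr ⟨hz', h3, h5⟩) e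

open Classical in
/-- **A dominating line in rank four**, simple form. -/
theorem crit4_dominating {A : Finset L} (hA : ∀ a ∈ A, IsAtom a) (hr : rk (A.sup id) = 4) {u : L}
    (hu : rk u = 2) (h : 14 * A.card ≤ (A.filter (· ≤ u)).card ^ 2) : Crit4 A := by
  refine crit4_dominating8 hA hr hu ?_
  have h1 : (A.filter (· ≤ u)).card ≤ A.card := card_le_card (filter_subset _ _)
  omega

end Pool.Agent.Helper98.DL
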