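import Pool.Agent.Helper38.Thick.Level1
import Pool.Agent.Helper61.Motz.Peel

/-!
# MP_47cd0b: a dominating line in rank four (assembly)

`u` is a line, `c0`, `c1` two of its points, `b2`, `b3` points such that `u`, `b2`, `b3` span.  The other
points of `u` use the lines to `b2` and `b3`; the points of `E` (at most one in every plane over `u`) use
the lines to `c0` and `c1`; every other point `z` has a line `g z` which misses `u` and a point `col z`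
of `u`.
-/

set_option autoImplicit false
set_option linter.unusedSectionVars false

namespace Pool.Agent.Helper98.DL

open Finset Pool.Agent.Helper28.BPack Pool.Agent.Helper61.Motz Pool.Agent.Helper38.Thick

variable {L : Type} [Lattice L] [BoundedOrder L] [Finite L] [IsUpperModularLattice L]

/-- Two lines through points of `u`, not in `u`, which agree: same point of `u`. -/
theorem same_col {u c c' z z' : L} (hc : IsAtom c) (hc' : IsAtom c')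
    (hz : IsAtom z) (_hz' : IsAtom z') (hcu : c ≤ u) (hcu' : c' ≤ u) (_hu : rk u = 2) (hzu : ¬ z ≤ u)
    (e : z ⊔ c = z' ⊔ c') : c = c' := by
  by_contra hne
  have hzc : z ≠ c := fun h => hzu (h ▸ hcu)
  have h1 : c ⊔ c' = z ⊔ c := line_of hc hc' hne le_sup_right (e ▸ le_sup_right)
    (rk_line hz hc hzc)
  have h2 : c ⊔ c' ≤ u := sup_le hcu hcu'
  exact hzu ((h1 ▸ le_sup_left : z ≤ c ⊔ c').trans h2)

theorem fin4_cases : ∀ i j k : Fin 4, i ≠ j → i ≠ k → j ≠ k →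
    ((0 = i ∨ 0 = j ∨ 0 = k) ∧ (1 = i ∨ 1 = j ∨ 1 = k) ∧ (2 = i ∨ 2 = j ∨ 2 = k)) ∨
    ((0 = i ∨ 0 = j ∨ 0 = k) ∧ (1 = i ∨ 1 = j ∨ 1 = k) ∧ (3 = i ∨ 3 = j ∨ 3 = k)) ∨
    ((0 = i ∨ 0 = j ∨ 0 = k) ∧ (2 = i ∨ 2 = j ∨ 2 = k) ∧ (3 = i ∨ 3 = j ∨ 3 = k)) ∨
    ((1 = i ∨ 1 = j ∨ 1 = k) ∧ (2 = i ∨ 2 = j ∨ 2 = k) ∧ (3 = i ∨ 3 = j ∨ 3 = k)) := by
  intro i j k
  omega

theorem assemble {A : Finset L} (hA : ∀ a ∈ A, IsAtom a) {u c0 c1 b2 b3 : L} (hu : rk u = 2)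
    (hc0 : c0 ∈ A) (hc1 : c1 ∈ A) (hb2 : b2 ∈ A) (hb3 : b3 ∈ A) (hc01 : c0 ≠ c1) (hc0u : c0 ≤ u)
    (hc1u : c1 ≤ u) (hb2u : ¬ b2 ≤ u) (hb3u : ¬ b3 ≤ u ⊔ b2) (E : L → Prop) (hE2 : E b2)
    (hE3 : E b3)
    (hEu : ∀ e ∈ A, ∀ e' ∈ A, ¬ e ≤ u → ¬ e' ≤ u → E e → E e' → u ⊔ e = u ⊔ e' → e = e')
    (col g y : L → L)
    (h3 : ∀ z ∈ A, ¬ z ≤ u → ¬ E z → col z ∈ A ∧ col z ≤ u ∧ col z ≠ c0 ∧ col z ≠ c1 ∧
      ¬ b2 ≤ z ⊔ col z ∧ ¬ b3 ≤ z ⊔ col z ∧ rk (g z) = 2 ∧ z ≤ g z ∧ y z ∈ A ∧ y z ≤ g z ∧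
      ¬ y z ≤ u ⊔ z ∧ ¬ b2 ⊔ b3 ≤ col z ⊔ g z ∧ g z ≠ b2 ⊔ b3)
    (hrow : ∀ z ∈ A, ∀ z' ∈ A, ¬ z ≤ u → ¬ z' ≤ u → ¬ E z → ¬ E z' →
      z ⊔ col z = z' ⊔ col z' → z = z')
    (hgi : ∀ z ∈ A, ∀ z' ∈ A, ¬ z ≤ u → ¬ z' ≤ u → ¬ E z → ¬ E z' → g z = g z' → z = z')
    (hpl : ∀ z ∈ A, ∀ z' ∈ A, ¬ z ≤ u → ¬ z' ≤ u → ¬ E z → ¬ E z' →
      col z ⊔ g z = col z' ⊔ g z' → z = z') : Crit4 A := by
  classical
  have a0 := hA _ hc0
  have a1 := hA _ hc1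
  have a2 := hA _ hb2
  have a3 := hA _ hb3
  have eu : c0 ⊔ c1 = u := line_of a0 a1 hc01 hc0u hc1u hu
  have hub2 : rk (u ⊔ b2) = 3 := by rw [rk_sup_atom a2 hb2u, hu]
  have hb3u' : ¬ b3 ≤ u := fun h => hb3u (h.trans le_sup_left)
  have hub3 : rk (u ⊔ b3) = 3 := by rw [rk_sup_atom a3 hb3u', hu]
  have hb2u3 : ¬ b2 ≤ u ⊔ b3 := by
    intro h
    have h1 : u ⊔ b2 = u ⊔ b3 := eq_of_le_of_rk (sup_le le_sup_left h) (by omega)
    exact hb3u (h1 ▸ le_sup_right)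
  have hb23 : b2 ≠ b3 := fun h => hb3u (h ▸ le_sup_right)
  have r4 : rk (u ⊔ b2 ⊔ b3) = 4 := by rw [rk_sup_atom a3 hb3u, hub2]
  -- a plane over u is not over b2 and b3
  have hno : ∀ H : L, rk H = 3 → u ≤ H → ¬ b2 ⊔ b3 ≤ H := by
    intro H hH h1 h2
    have h4 := rk_mono (sup_le (sup_le h1 (le_sup_left.trans h2)) (le_sup_right.trans h2) :
      u ⊔ b2 ⊔ b3 ≤ H)
    omega
  -- type one
  have t1 : ∀ q ∈ A, q ≤ u → rk (q ⊔ b2) = 2 ∧ rk (q ⊔ b3) = 2 ∧ rk (q ⊔ b2 ⊔ b3) = 3 ∧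
      ¬ u ≤ q ⊔ b2 ⊔ b3 := by
    intro q hq hqu
    have h1 : q ≠ b2 := fun h => hb2u (h ▸ hqu)
    have h2 : q ≠ b3 := fun h => hb3u' (h ▸ hqu)
    have h4 := rk_line (hA q hq) a2 h1
    have h5 : rk (q ⊔ b2 ⊔ b3) = 3 := by
      rw [rk_sup_atom a3 (fun h => hb3u (h.trans (sup_le_sup_right hqu _))), h4]
    refine ⟨h4, rk_line (hA q hq) a3 h2, h5, ?_⟩
    intro h6
    exact hno _ h5 h6 (sup_le (le_sup_right.trans le_sup_left) le_sup_right)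
  have sep1 : ∀ q ∈ A, ∀ q' ∈ A, q ≤ u → q' ≤ u → q' ≤ q ⊔ b2 ⊔ b3 → q = q' := by
    intro q hq q' hq' hqu hqu' h
    by_contra hne
    have h1 : q ⊔ q' = u := line_of (hA q hq) (hA q' hq') hne hqu hqu' hu
    exact (t1 q hq hqu).2.2.2 (h1 ▸ sup_le (le_sup_left.trans le_sup_left) h)
  -- type two
  have t2 : ∀ q ∈ A, ¬ q ≤ u → E q → q ≠ b2 → q ≠ b3 → rk (u ⊔ q) = 3 ∧ ¬ b2 ≤ u ⊔ q ∧
      ¬ b3 ≤ u ⊔ q := by
    intro q hq hqu hqE h1 h2
    have h4 : rk (u ⊔ q) = 3 := by rw [rk_sup_atom (hA q hq) hqu, hu]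
    refine ⟨h4, ?_, ?_⟩
    · intro h5
      have h6 : u ⊔ b2 = u ⊔ q := eq_of_le_of_rk (sup_le le_sup_left h5) (by omega)
      exact h1 (hEu q hq b2 hb2 hqu hb2u hqE hE2 h6.symm)
    · intro h5
      have h6 : u ⊔ b3 = u ⊔ q := eq_of_le_of_rk (sup_le le_sup_left h5) (by omega)
      exact h2 (hEu q hq b3 hb3 hqu hb3u' hqE hE3 h6.symm)
  -- type three
  have t3 : ∀ z ∈ A, ¬ z ≤ u → ¬ E z → z ⊔ y z = g z ∧ rk (z ⊔ col z) = 2 ∧
      z ⊔ col z ⊔ y z = col z ⊔ g z ∧ rk (col z ⊔ g z) = 3 ∧ ¬ u ≤ col z ⊔ g z ∧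
      (∀ a, IsAtom a → a ≤ u → ¬ a ≤ g z) := by
    intro z hz hzu hzE
    obtain ⟨k1, k2, k3, k4, k5, k6, k7, k8, k9, k10, k11, k12, k13⟩ := h3 z hz hzu hzE
    have hzc : z ≠ col z := fun h => hzu (h ▸ k2)
    have hzy : z ≠ y z := fun h => k11 (h ▸ le_sup_right)
    have m1 : z ⊔ y z = g z := line_of (hA z hz) (hA _ k9) hzy k8 k10 k7
    have m2 := rk_line (hA z hz) (hA _ k1) hzc
    have m3 : z ⊔ col z ⊔ y z = col z ⊔ g z := by
      rw [← m1, sup_comm z (col z), sup_assoc]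
    have m4 : rk (col z ⊔ g z) = 3 := by
      rw [← m3, rk_sup_atom (hA _ k9) (fun h => k11 (h.trans (sup_le le_sup_right
        (k2.trans le_sup_left)))), m2]
    refine ⟨m1, m2, m3, m4, ?_, ?_⟩
    · intro h
      have h1 : u ⊔ z = col z ⊔ g z := eq_of_le_of_rk (sup_le h (k8.trans le_sup_right)) (by
        rw [rk_sup_atom (hA z hz) hzu, hu]
        omega)
      exact k11 (h1 ▸ k10.trans le_sup_right)
    · intro a ha hau hag
      have hza : z ≠ a := fun h => hzu (h ▸ hau)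
      have h1 : z ⊔ a = g z := line_of (hA z hz) ha hza k8 hag k7
      exact k11 (k10.trans (h1 ▸ sup_le le_sup_right (hau.trans le_sup_left)))
  have hfr : ∀ i j : Fin 4, i ≠ j → (![c0, c1, b2, b3] : Fin 4 → L) i ⊔ (![c0, c1, b2, b3] : Fin 4 → L) j = u ∨
      (![c0, c1, b2, b3] : Fin 4 → L) i ⊔ (![c0, c1, b2, b3] : Fin 4 → L) j = c0 ⊔ b2 ∨
      (![c0, c1, b2, b3] : Fin 4 → L) i ⊔ (![c0, c1, b2, b3] : Fin 4 → L) j = c1 ⊔ b2 ∨
      (![c0, c1, b2, b3] : Fin 4 → L) i ⊔ (![c0, c1, b2, b3] : Fin 4 → L) j = c0 ⊔ b3 ∨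
      (![c0, c1, b2, b3] : Fin 4 → L) i ⊔ (![c0, c1, b2, b3] : Fin 4 → L) j = c1 ⊔ b3 ∨
      (![c0, c1, b2, b3] : Fin 4 → L) i ⊔ (![c0, c1, b2, b3] : Fin 4 → L) j = b2 ⊔ b3 := by
    intro i j hij
    fin_cases i <;> fin_cases j
    · exact absurd rfl hij
    · exact Or.inl eu
    · exact Or.inr (Or.inl rfl)
    · exact Or.inr (Or.inr (Or.inr (Or.inl rfl)))
    · exact Or.inl ((sup_comm c1 c0).trans eu)
    · exact absurd rfl hij
    · exact Or.inr (Or.inr (Or.inl rfl))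
    · exact Or.inr (Or.inr (Or.inr (Or.inr (Or.inl rfl))))
    · exact Or.inr (Or.inl (sup_comm b2 c0))
    · exact Or.inr (Or.inr (Or.inl (sup_comm b2 c1)))
    · exact absurd rfl hij
    · exact Or.inr (Or.inr (Or.inr (Or.inr (Or.inr rfl))))
    · exact Or.inr (Or.inr (Or.inr (Or.inl (sup_comm b3 c0))))
    · exact Or.inr (Or.inr (Or.inr (Or.inr (Or.inl (sup_comm b3 c1)))))
    · exact Or.inr (Or.inr (Or.inr (Or.inr (Or.inr (sup_comm b3 b2)))))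
    · exact absurd rfl hij
  -- the frame planes contain u and b2 or b3, or b2 and b3
  have hfp : ∀ i j k : Fin 4, i ≠ j → i ≠ k → j ≠ k → ∀ H : L,
      H = (![c0, c1, b2, b3] : Fin 4 → L) i ⊔ (![c0, c1, b2, b3] : Fin 4 → L) j ⊔
        (![c0, c1, b2, b3] : Fin 4 → L) k →
      (u ≤ H ∧ b2 ≤ H) ∨ (u ≤ H ∧ b3 ≤ H) ∨ (c0 ≤ H ∧ b2 ⊔ b3 ≤ H) ∨ (c1 ≤ H ∧ b2 ⊔ b3 ≤ H) := by
    intro i j k hij hik hjk H hH
    have hle : ∀ l : Fin 4, l = i ∨ l = j ∨ l = k → (![c0, c1, b2, b3] : Fin 4 → L) l ≤ H := by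
      intro l hl
      rw [hH]
      rcases hl with rfl | rfl | rfl
      · exact le_sup_left.trans le_sup_left
      · exact le_sup_right.trans le_sup_left
      · exact le_sup_right
    have hcases := fin4_cases i j k hij hik hjk
    rcases hcases with ⟨h1, h2, h4⟩ | ⟨h1, h2, h4⟩ | ⟨h1, h2, h4⟩ | ⟨h1, h2, h4⟩
    · exact Or.inl ⟨eu ▸ sup_le (hle 0 h1) (hle 1 h2), hle 2 h4⟩
    · exact Or.inr (Or.inl ⟨eu ▸ sup_le (hle 0 h1) (hle 1 h2), hle 3 h4⟩)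
    · exact Or.inr (Or.inr (Or.inl ⟨hle 0 h1, sup_le (hle 2 h2) (hle 3 h4)⟩))
    · exact Or.inr (Or.inr (Or.inr ⟨hle 1 h1, sup_le (hle 2 h2) (hle 3 h4)⟩))
  let cc : L → L := fun q => if q ≤ u then b2 else if E q then c0 else col q
  let dd : L → L := fun q => if q ≤ u then b3 else if E q then c1 else y q
  have cc1 : ∀ q, q ≤ u → cc q = b2 ∧ dd q = b3 := fun q h =>
    ⟨by simp only [cc, if_pos h], by simp only [dd, if_pos h]⟩
  have cc2 : ∀ q, ¬ q ≤ u → E q → cc q = c0 ∧ dd q = c1 := fun q h h' =>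
    ⟨by simp only [cc, if_neg h, if_pos h'], by simp only [dd, if_neg h, if_pos h']⟩
  have cc3 : ∀ q, ¬ q ≤ u → ¬ E q → cc q = col q ∧ dd q = y q := fun q h h' =>
    ⟨by simp only [cc, if_neg h, if_neg h'], by simp only [dd, if_neg h, if_neg h']⟩
  have hcase : ∀ q ∈ A, (∀ i, q ≠ (![c0, c1, b2, b3] : Fin 4 → L) i) →
      (q ≤ u ∧ q ≠ c0 ∧ q ≠ c1) ∨ (¬ q ≤ u ∧ E q ∧ q ≠ b2 ∧ q ≠ b3) ∨ (¬ q ≤ u ∧ ¬ E q) := by
    intro q _ h
    by_cases h1 : q ≤ u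
    · exact Or.inl ⟨h1, h 0, h 1⟩
    · by_cases h2 : E q
      · exact Or.inr (Or.inl ⟨h1, h2, h 2, h 3⟩)
      · exact Or.inr (Or.inr ⟨h1, h2⟩)
  -- the point of u on the first line
  have hub : ∀ q ∈ A, ¬ q ≤ u → ∀ c, c ≤ u → q ⊔ c ≤ u ⊔ q := fun q _ _ c hc =>
    sup_le le_sup_right (hc.trans le_sup_left)
  refine ⟨![c0, c1, b2, b3], cc, dd, ?_, ?_, ?_, ?_, ?_, ?_, ?_, ?_, ?_, ?_⟩
  · intro i
    fin_cases i
    exacts [hc0, hc1, hb2, hb3]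
  · have h1 : (Finset.univ : Finset (Fin 4)) = insert 0 (insert 1 (insert 2 {3})) := by decide
    rw [h1, Finset.sup_insert, Finset.sup_insert, Finset.sup_insert, Finset.sup_singleton]
    change rk (c0 ⊔ (c1 ⊔ (b2 ⊔ b3))) = 4
    rw [← sup_assoc, eu, ← sup_assoc]
    exact r4
  · intro q hq hne
    rcases hcase q hq hne with ⟨h1, h2, h4⟩ | ⟨h1, h2, h4, h5⟩ | ⟨h1, h2⟩
    · obtain ⟨e1, e2⟩ := cc1 q h1
      rw [e1, e2]
      exact ⟨hb2, hb3, (t1 q hq h1).2.2.1⟩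
    · obtain ⟨e1, e2⟩ := cc2 q h1 h2
      rw [e1, e2, sup_assoc, eu, sup_comm]
      exact ⟨hc0, hc1, (t2 q hq h1 h2 h4 h5).1⟩
    · obtain ⟨e1, e2⟩ := cc3 q h1 h2
      obtain ⟨m1, m2, m3, m4, m5, m6⟩ := t3 q hq h1 h2
      obtain ⟨k1, k2, k3, k4, k5, k6, k7, k8, k9, k10, k11, k12, k13⟩ := h3 q hq h1 h2
      rw [e1, e2, m3]
      exact ⟨k1, k9, m4⟩
  · -- first lines
    intro q hq hne q' hq' hne' e
    rcases hcase q hq hne with ⟨h1, h2, h4⟩ | ⟨h1, h2, h4, h5⟩ | ⟨h1, h2⟩ <;>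
      rcases hcase q' hq' hne' with ⟨h1', h2', h4'⟩ | ⟨h1', h2', h4', h5'⟩ | ⟨h1', h2'⟩
    · rw [(cc1 q h1).1, (cc1 q' h1').1] at e
      rw [sup_comm q, sup_comm q'] at e
      exact same_col (hA q hq) (hA q' hq') a2 a2 h1 h1' hu hb2u e
    · rw [(cc1 q h1).1, (cc2 q' h1' h2').1] at e
      rw [sup_comm q] at e
      exact absurd (same_col (hA q hq) a0 a2 (hA q' hq') h1 hc0u hu hb2u e) h2
    · rw [(cc1 q h1).1, (cc3 q' h1' h2').1] at e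
      exact absurd (e ▸ le_sup_right) (h3 q' hq' h1' h2').2.2.2.2.1
    · rw [(cc2 q h1 h2).1, (cc1 q' h1').1] at e
      rw [sup_comm q'] at e
      exact absurd (same_col a0 (hA q' hq') (hA q hq) a2 hc0u h1' hu h1 e).symm h2'
    · rw [(cc2 q h1 h2).1, (cc2 q' h1' h2').1] at e
      refine hEu q hq q' hq' h1 h1' h2 h2' ?_
      have r1 := (t2 q hq h1 h2 h4 h5).1
      have r2 := (t2 q' hq' h1' h2' h4' h5').1
      exact (eq_of_le_of_rk (sup_le le_sup_left ((le_sup_left.trans e.symm.le).trans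
        (hub q hq h1 c0 hc0u))) (by omega)).symm
    · rw [(cc2 q h1 h2).1, (cc3 q' h1' h2').1] at e
      obtain ⟨k1, k2, k3, -⟩ := h3 q' hq' h1' h2'
      exact absurd (same_col a0 (hA _ k1) (hA q hq) (hA q' hq') hc0u k2 hu h1 e).symm k3
    · rw [(cc3 q h1 h2).1, (cc1 q' h1').1] at e
      exact absurd (e.symm ▸ le_sup_right) (h3 q hq h1 h2).2.2.2.2.1
    · rw [(cc3 q h1 h2).1, (cc2 q' h1' h2').1] at e
      obtain ⟨k1, k2, k3, -⟩ := h3 q hq h1 h2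
      exact absurd (same_col (hA _ k1) a0 (hA q hq) (hA q' hq') k2 hc0u hu h1 e) k3
    · rw [(cc3 q h1 h2).1, (cc3 q' h1' h2').1] at e
      exact hrow q hq q' hq' h1 h1' h2 h2' e
  · -- second lines
    intro q hq hne q' hq' hne' e
    rcases hcase q hq hne with ⟨h1, h2, h4⟩ | ⟨h1, h2, h4, h5⟩ | ⟨h1, h2⟩ <;>
      rcases hcase q' hq' hne' with ⟨h1', h2', h4'⟩ | ⟨h1', h2', h4', h5'⟩ | ⟨h1', h2'⟩
    · rw [(cc1 q h1).2, (cc1 q' h1').2] at e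
      rw [sup_comm q, sup_comm q'] at e
      exact same_col (hA q hq) (hA q' hq') a3 a3 h1 h1' hu hb3u' e
    · rw [(cc1 q h1).2, (cc2 q' h1' h2').2] at e
      rw [sup_comm q] at e
      exact absurd (same_col (hA q hq) a1 a3 (hA q' hq') h1 hc1u hu hb3u' e) h4
    · rw [(cc1 q h1).2, (cc3 q' h1' h2').2, (t3 q' hq' h1' h2').1] at e
      exact absurd (e ▸ le_sup_left) ((t3 q' hq' h1' h2').2.2.2.2.2 q (hA q hq) h1)
    · rw [(cc2 q h1 h2).2, (cc1 q' h1').2] at e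
      rw [sup_comm q'] at e
      exact absurd (same_col a1 (hA q' hq') (hA q hq) a3 hc1u h1' hu h1 e).symm h4'
    · rw [(cc2 q h1 h2).2, (cc2 q' h1' h2').2] at e
      refine hEu q hq q' hq' h1 h1' h2 h2' ?_
      have r1 := (t2 q hq h1 h2 h4 h5).1
      have r2 := (t2 q' hq' h1' h2' h4' h5').1
      exact (eq_of_le_of_rk (sup_le le_sup_left ((le_sup_left.trans e.symm.le).trans
        (hub q hq h1 c1 hc1u))) (by omega)).symm
    · rw [(cc2 q h1 h2).2, (cc3 q' h1' h2').2, (t3 q' hq' h1' h2').1] at e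
      exact absurd (e ▸ le_sup_right) ((t3 q' hq' h1' h2').2.2.2.2.2 c1 a1 hc1u)
    · rw [(cc3 q h1 h2).2, (cc1 q' h1').2, (t3 q hq h1 h2).1] at e
      exact absurd (e ▸ le_sup_left) ((t3 q hq h1 h2).2.2.2.2.2 q' (hA q' hq') h1')
    · rw [(cc3 q h1 h2).2, (cc2 q' h1' h2').2, (t3 q hq h1 h2).1] at e
      exact absurd (e ▸ le_sup_right) ((t3 q hq h1 h2).2.2.2.2.2 c1 a1 hc1u)
    · rw [(cc3 q h1 h2).2, (cc3 q' h1' h2').2, (t3 q hq h1 h2).1, (t3 q' hq' h1' h2').1] at e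
      exact hgi q hq q' hq' h1 h1' h2 h2' e
  · -- first against second lines
    intro q hq hne q' hq' hne' e
    rcases hcase q hq hne with ⟨h1, h2, h4⟩ | ⟨h1, h2, h4, h5⟩ | ⟨h1, h2⟩ <;>
      rcases hcase q' hq' hne' with ⟨h1', h2', h4'⟩ | ⟨h1', h2', h4', h5'⟩ | ⟨h1', h2'⟩
    · rw [(cc1 q h1).1, (cc1 q' h1').2] at e
      exact hb3u ((le_sup_right.trans e.symm.le).trans (sup_le_sup_right h1 _))
    · rw [(cc1 q h1).1, (cc2 q' h1' h2').2] at e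
      exact (t2 q' hq' h1' h2' h4' h5').2.1 ((le_sup_right.trans e.le).trans
        (hub q' hq' h1' c1 hc1u))
    · rw [(cc1 q h1).1, (cc3 q' h1' h2').2, (t3 q' hq' h1' h2').1] at e
      exact (t3 q' hq' h1' h2').2.2.2.2.2 q (hA q hq) h1 (e ▸ le_sup_left)
    · rw [(cc2 q h1 h2).1, (cc1 q' h1').2] at e
      exact (t2 q hq h1 h2 h4 h5).2.2 ((le_sup_right.trans e.symm.le).trans
        (hub q hq h1 c0 hc0u))
    · rw [(cc2 q h1 h2).1, (cc2 q' h1' h2').2] at e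
      exact hc01 (same_col a0 a1 (hA q hq) (hA q' hq') hc0u hc1u hu h1 e)
    · rw [(cc2 q h1 h2).1, (cc3 q' h1' h2').2, (t3 q' hq' h1' h2').1] at e
      exact (t3 q' hq' h1' h2').2.2.2.2.2 c0 a0 hc0u (e ▸ le_sup_right)
    · rw [(cc3 q h1 h2).1, (cc1 q' h1').2] at e
      exact (h3 q hq h1 h2).2.2.2.2.2.1 (e ▸ le_sup_right)
    · rw [(cc3 q h1 h2).1, (cc2 q' h1' h2').2] at e
      obtain ⟨k1, k2, k3, k4, -⟩ := h3 q hq h1 h2
      exact k4 (same_col (hA _ k1) a1 (hA q hq) (hA q' hq') k2 hc1u hu h1 e)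
    · rw [(cc3 q h1 h2).1, (cc3 q' h1' h2').2, (t3 q' hq' h1' h2').1] at e
      obtain ⟨k1, k2, k3, k4, -⟩ := h3 q hq h1 h2
      exact (t3 q' hq' h1' h2').2.2.2.2.2 (col q) (hA _ k1) k2 (e ▸ le_sup_right)
  · -- first lines against the frame
    intro q hq hne i j hij e
    rcases hcase q hq hne with ⟨h1, h2, h4⟩ | ⟨h1, h2, h4, h5⟩ | ⟨h1, h2⟩
    · rw [(cc1 q h1).1] at e
      rcases hfr i j hij with h | h | h | h | h | h <;> rw [h] at e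
      · exact hb2u (e ▸ le_sup_right)
      · rw [sup_comm q, sup_comm c0] at e
        exact h2 (same_col (hA q hq) a0 a2 a2 h1 hc0u hu hb2u e)
      · rw [sup_comm q, sup_comm c1] at e
        exact h4 (same_col (hA q hq) a1 a2 a2 h1 hc1u hu hb2u e)
      · exact hb3u ((le_sup_right.trans e.symm.le).trans (sup_le_sup_right h1 _))
      · exact hb3u ((le_sup_right.trans e.symm.le).trans (sup_le_sup_right h1 _))
      · exact hb3u ((le_sup_right.trans e.symm.le).trans (sup_le_sup_right h1 _))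
    · rw [(cc2 q h1 h2).1] at e
      obtain ⟨m1, m2, m3⟩ := t2 q hq h1 h2 h4 h5
      rcases hfr i j hij with h | h | h | h | h | h <;> rw [h] at e
      · exact h1 (e ▸ le_sup_left)
      · exact m2 ((le_sup_right.trans e.symm.le).trans (hub q hq h1 c0 hc0u))
      · exact m2 ((le_sup_right.trans e.symm.le).trans (hub q hq h1 c0 hc0u))
      · exact m3 ((le_sup_right.trans e.symm.le).trans (hub q hq h1 c0 hc0u))
      · exact m3 ((le_sup_right.trans e.symm.le).trans (hub q hq h1 c0 hc0u))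
      · exact m3 ((le_sup_right.trans e.symm.le).trans (hub q hq h1 c0 hc0u))
    · rw [(cc3 q h1 h2).1] at e
      obtain ⟨k1, k2, k3, k4, k5, k6, k7, k8, k9, k10, k11, k12, k13⟩ := h3 q hq h1 h2
      rcases hfr i j hij with h | h | h | h | h | h <;> rw [h] at e
      · exact h1 (e ▸ le_sup_left)
      · exact k5 (le_sup_right.trans e.symm.le)
      · exact k5 (le_sup_right.trans e.symm.le)
      · exact k6 (le_sup_right.trans e.symm.le)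
      · exact k6 (le_sup_right.trans e.symm.le)
      · exact k6 (le_sup_right.trans e.symm.le)
  · -- second lines against the frame
    intro q hq hne i j hij e
    rcases hcase q hq hne with ⟨h1, h2, h4⟩ | ⟨h1, h2, h4, h5⟩ | ⟨h1, h2⟩
    · rw [(cc1 q h1).2] at e
      rcases hfr i j hij with h | h | h | h | h | h <;> rw [h] at e
      · exact hb3u' (e ▸ le_sup_right)
      · exact hb2u3 ((le_sup_right.trans e.symm.le).trans (sup_le_sup_right h1 _))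
      · exact hb2u3 ((le_sup_right.trans e.symm.le).trans (sup_le_sup_right h1 _))
      · rw [sup_comm q, sup_comm c0] at e
        exact h2 (same_col (hA q hq) a0 a3 a3 h1 hc0u hu hb3u' e)
      · rw [sup_comm q, sup_comm c1] at e
        exact h4 (same_col (hA q hq) a1 a3 a3 h1 hc1u hu hb3u' e)
      · exact hb2u3 ((le_sup_left.trans e.symm.le).trans (sup_le_sup_right h1 _))
    · rw [(cc2 q h1 h2).2] at e
      obtain ⟨m1, m2, m3⟩ := t2 q hq h1 h2 h4 h5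
      rcases hfr i j hij with h | h | h | h | h | h <;> rw [h] at e
      · exact h1 (e ▸ le_sup_left)
      · exact m2 ((le_sup_right.trans e.symm.le).trans (hub q hq h1 c1 hc1u))
      · exact m2 ((le_sup_right.trans e.symm.le).trans (hub q hq h1 c1 hc1u))
      · exact m3 ((le_sup_right.trans e.symm.le).trans (hub q hq h1 c1 hc1u))
      · exact m3 ((le_sup_right.trans e.symm.le).trans (hub q hq h1 c1 hc1u))
      · exact m3 ((le_sup_right.trans e.symm.le).trans (hub q hq h1 c1 hc1u))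
    · rw [(cc3 q h1 h2).2, (t3 q hq h1 h2).1] at e
      obtain ⟨k1, k2, k3, k4, k5, k6, k7, k8, k9, k10, k11, k12, k13⟩ := h3 q hq h1 h2
      have m6 := (t3 q hq h1 h2).2.2.2.2.2
      rcases hfr i j hij with h | h | h | h | h | h <;> rw [h] at e
      · exact h1 (e ▸ k8)
      · exact m6 c0 a0 hc0u (e ▸ le_sup_left)
      · exact m6 c1 a1 hc1u (e ▸ le_sup_left)
      · exact m6 c0 a0 hc0u (e ▸ le_sup_left)
      · exact m6 c1 a1 hc1u (e ▸ le_sup_left)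
      · exact k13 e
  · -- planes
    intro q hq hne q' hq' hne' e
    rcases hcase q hq hne with ⟨h1, h2, h4⟩ | ⟨h1, h2, h4, h5⟩ | ⟨h1, h2⟩ <;>
      rcases hcase q' hq' hne' with ⟨h1', h2', h4'⟩ | ⟨h1', h2', h4', h5'⟩ | ⟨h1', h2'⟩
    · rw [(cc1 q h1).1, (cc1 q' h1').1, (cc1 q h1).2, (cc1 q' h1').2] at e
      exact sep1 q hq q' hq' h1 h1' (e ▸ le_sup_left.trans le_sup_left)
    · rw [(cc1 q h1).1, (cc1 q h1).2, (cc2 q' h1' h2').1, (cc2 q' h1' h2').2, sup_assoc q', eu] at e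
      exact absurd (e ▸ le_sup_right) (t1 q hq h1).2.2.2
    · rw [(cc1 q h1).1, (cc1 q h1).2, (cc3 q' h1' h2').1, (cc3 q' h1' h2').2,
        (t3 q' hq' h1' h2').2.2.1] at e
      obtain ⟨k1, k2, k3, k4, k5, k6, k7, k8, k9, k10, k11, k12, k13⟩ := h3 q' hq' h1' h2'
      exact absurd (e ▸ sup_le (le_sup_right.trans le_sup_left) le_sup_right) k12
    · rw [(cc1 q' h1').1, (cc1 q' h1').2, (cc2 q h1 h2).1, (cc2 q h1 h2).2, sup_assoc q, eu] at e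
      exact absurd (e ▸ le_sup_right) (t1 q' hq' h1').2.2.2
    · rw [(cc2 q h1 h2).1, (cc2 q h1 h2).2, (cc2 q' h1' h2').1, (cc2 q' h1' h2').2, sup_assoc q,
        sup_assoc q', eu, sup_comm q, sup_comm q'] at e
      exact hEu q hq q' hq' h1 h1' h2 h2' e
    · rw [(cc2 q h1 h2).1, (cc2 q h1 h2).2, (cc3 q' h1' h2').1, (cc3 q' h1' h2').2,
        (t3 q' hq' h1' h2').2.2.1, sup_assoc q, eu] at e
      exact absurd (e ▸ le_sup_right) (t3 q' hq' h1' h2').2.2.2.2.1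
    · rw [(cc1 q' h1').1, (cc1 q' h1').2, (cc3 q h1 h2).1, (cc3 q h1 h2).2,
        (t3 q hq h1 h2).2.2.1] at e
      obtain ⟨k1, k2, k3, k4, k5, k6, k7, k8, k9, k10, k11, k12, k13⟩ := h3 q hq h1 h2
      exact absurd (e ▸ sup_le (le_sup_right.trans le_sup_left) le_sup_right) k12
    · rw [(cc2 q' h1' h2').1, (cc2 q' h1' h2').2, (cc3 q h1 h2).1, (cc3 q h1 h2).2,
        (t3 q hq h1 h2).2.2.1, sup_assoc q', eu] at e
      exact absurd (e ▸ le_sup_right) (t3 q hq h1 h2).2.2.2.2.1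
    · rw [(cc3 q' h1' h2').1, (cc3 q' h1' h2').2, (cc3 q h1 h2).1, (cc3 q h1 h2).2,
        (t3 q hq h1 h2).2.2.1, (t3 q' hq' h1' h2').2.2.1] at e
      exact hpl q hq q' hq' h1 h1' h2 h2' e
  · -- planes against the frame
    intro q hq hne i j k hij hik hjk e
    rcases hcase q hq hne with ⟨h1, h2, h4⟩ | ⟨h1, h2, h4, h5⟩ | ⟨h1, h2⟩
    · rw [(cc1 q h1).1, (cc1 q h1).2] at e
      rcases hfp i j k hij hik hjk _ e with ⟨m1, m2⟩ | ⟨m1, m2⟩ | ⟨m1, m2⟩ | ⟨m1, m2⟩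
      · exact (t1 q hq h1).2.2.2 m1
      · exact (t1 q hq h1).2.2.2 m1
      · exact h2 (sep1 q hq c0 hc0 h1 hc0u m1)
      · exact h4 (sep1 q hq c1 hc1 h1 hc1u m1)
    · rw [(cc2 q h1 h2).1, (cc2 q h1 h2).2, sup_assoc q, eu, sup_comm q] at e
      obtain ⟨n1, n2, n3⟩ := t2 q hq h1 h2 h4 h5
      rcases hfp i j k hij hik hjk _ e with ⟨m1, m2⟩ | ⟨m1, m2⟩ | ⟨m1, m2⟩ | ⟨m1, m2⟩
      · exact n2 m2
      · exact n3 m2
      · exact n2 (le_sup_left.trans m2)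
      · exact n2 (le_sup_left.trans m2)
    · rw [(cc3 q h1 h2).1, (cc3 q h1 h2).2, (t3 q hq h1 h2).2.2.1] at e
      obtain ⟨k1, k2, k3, k4, k5, k6, k7, k8, k9, k10, k11, k12, k13⟩ := h3 q hq h1 h2
      have n1 := (t3 q hq h1 h2).2.2.2.2.1
      rcases hfp i j k hij hik hjk _ e with ⟨m1, m2⟩ | ⟨m1, m2⟩ | ⟨m1, m2⟩ | ⟨m1, m2⟩
      · exact n1 m1
      · exact n1 m1
      · exact k12 m2
      · exact k12 m2

end Pool.Agent.Helper98.DL
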